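import Mathlib

/-!
# Stallings' Conjectures B and G for towers of positive equations and of equations with class two coefficients

`Wr P n` is the wreath product of `P` with `ZMod n`.  The diagonal embedding `P → Wr P n` is
conservative: a relation `∏ h_i g_i h_i⁻¹ = 1` with `g_i` diagonal gives the same relation in `P`
(look at coordinate `0`).  Hence it suffices to solve the equations step by step in such groups.
-/

set_option autoImplicit false

open Monoid
open scoped commutatorElement

namespace Pool.Agent.Results.MP_e9d015_al.WreathTowers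

universe u v

/-- `φ : G → H` is conservative: if `1` is a product of `H`-conjugates of `φ (g 0), ..., φ (g (r-1))`
then `1` is a product of `G`-conjugates of `g 0, ..., g (r-1)`. -/
def Conservative {G : Type u} {H : Type v} [Group G] [Group H] (φ : G →* H) : Prop :=
  ∀ (r : ℕ) (g : Fin r → G),
    (∃ h : Fin r → H, (List.ofFn fun i => h i * φ (g i) * (h i)⁻¹).prod = 1) →
    ∃ k : Fin r → G, (List.ofFn fun i => k i * g i * (k i)⁻¹).prod = 1

/-- the word `t^(ε₁) c₁ t^(ε₂) c₂ ...` -/
def word {A : Type u} [Group A] (t : A) (L : List (ℤ × A)) : A := (L.map fun x => t ^ x.1 * x.2).prod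

/-- the group generated by the coefficients -/
def coefs {A : Type u} [Group A] (L : List (ℤ × A)) : Subgroup A :=
  Subgroup.closure {a | ∃ x ∈ L, a = x.2}

/-- admissible equations `t^(ε₁) c₁ t^(ε₂) c₂ ... = 1`: the exponent sum is nonzero, and no exponent
is negative, or no exponent is positive, or the coefficients generate a nilpotent group of class at
most two -/
def Good {A : Type u} [Group A] (L : List (ℤ × A)) : Prop :=
  (L.map Prod.fst).sum ≠ 0 ∧ ((∀ x ∈ L, 0 ≤ x.1) ∨ (∀ x ∈ L, x.1 ≤ 0) ∨
      ∀ a ∈ coefs L, ∀ b ∈ coefs L, ∀ c ∈ coefs L, ⁅⁅a, b⁆, c⁆ = 1)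

/-! ### Conservative homomorphisms -/

section cons

variable {G : Type*} {H : Type*} {K : Type*} [Group G] [Group H] [Group K]

lemma Conservative.comp {φ : G →* H} {ψ : H →* K} (hψ : Conservative ψ) (hφ : Conservative φ) :
    Conservative (ψ.comp φ) := fun r g h => hφ r g (hψ r (fun i => φ (g i)) h)

lemma Conservative.of_comp {φ : G →* H} {ψ : H →* K} (h : Conservative (ψ.comp φ)) :
    Conservative φ := by
  rintro r g ⟨k, hk⟩
  refine h r g ⟨fun i => ψ (k i), ?_⟩
  have := congrArg ψ hk
  rw [map_one, map_list_prod, List.map_ofFn] at this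
  rw [← this]
  congr 2
  funext i
  simp

lemma conservative_id : Conservative (MonoidHom.id G) := fun _ _ h => h

end cons

/-! ### The wreath product -/

/-- wreath product of `P` with `ZMod n` -/
@[ext] structure Wr (P : Type u) (n : ℕ) where
  f : ZMod n → P
  a : ZMod n

namespace Wr

variable {P : Type u} [Group P] {n : ℕ}

instance : Mul (Wr P n) := ⟨fun x y => ⟨fun i => x.f i * y.f (i - x.a), x.a + y.a⟩⟩
instance : One (Wr P n) := ⟨⟨fun _ => 1, 0⟩⟩
instance : Inv (Wr P n) := ⟨fun x => ⟨fun i => (x.f (i + x.a))⁻¹, -x.a⟩⟩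

@[simp] lemma mul_f (x y : Wr P n) (i : ZMod n) : (x * y).f i = x.f i * y.f (i - x.a) := rfl
@[simp] lemma mul_a (x y : Wr P n) : (x * y).a = x.a + y.a := rfl
@[simp] lemma one_f (i : ZMod n) : (1 : Wr P n).f i = 1 := rfl
@[simp] lemma one_a : (1 : Wr P n).a = 0 := rfl
@[simp] lemma inv_f (x : Wr P n) (i : ZMod n) : (x⁻¹).f i = (x.f (i + x.a))⁻¹ := rfl
@[simp] lemma inv_a (x : Wr P n) : (x⁻¹).a = -x.a := rfl

instance : Group (Wr P n) := Group.ofLeftAxioms
  (fun x y z => by
    ext i
    · simp only [mul_f, mul_a, mul_assoc, sub_add_eq_sub_sub]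
    · simp only [mul_a, add_assoc])
  (fun x => by
    ext i
    · simp
    · simp)
  (fun x => by
    ext i
    · simp
    · simp)

/-- the diagonal -/
def diag (P : Type u) [Group P] (n : ℕ) : P →* Wr P n where
  toFun g := ⟨fun _ => g, 0⟩
  map_one' := rfl
  map_mul' g h := by
    ext i
    · simp
    · simp

@[simp] lemma diag_f (g : P) (i : ZMod n) : (diag P n g).f i = g := rfl
@[simp] lemma diag_a (g : P) : (diag P n g).a = 0 := rfl

lemma prod_f (l : List (Wr P n)) (h : ∀ x ∈ l, x.a = 0) (i : ZMod n) :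
    l.prod.f i = (l.map fun x => x.f i).prod := by
  induction l with
  | nil => simp
  | cons x l ih =>
    rw [List.prod_cons, mul_f, h x (List.mem_cons_self), sub_zero,
      ih (fun y hy => h y (List.mem_cons_of_mem _ hy)), List.map_cons, List.prod_cons]

lemma conservative_diag : Conservative (diag P n) := by
  rintro r g ⟨h, hh⟩
  refine ⟨fun i => (h i).f 0, ?_⟩
  have h1 := congrArg (fun x : Wr P n => x.f 0) hh
  rw [prod_f _ (by
    intro x hx
    rw [List.mem_ofFn] at hx
    obtain ⟨i, rfl⟩ := hx
    simp), List.map_ofFn] at h1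
  rw [one_f] at h1
  rw [← h1]
  congr 2
  funext i
  simp

/-- functoriality -/
def map {Q : Type v} [Group Q] (φ : P →* Q) : Wr P n →* Wr Q n where
  toFun x := ⟨fun i => φ (x.f i), x.a⟩
  map_one' := by
    ext i
    · simp
    · simp
  map_mul' x y := by
    ext i
    · simp
    · simp

lemma map_diag {Q : Type v} [Group Q] (φ : P →* Q) (g : P) :
    map φ (diag P n g) = diag Q n (φ g) := rfl

end Wr

/-! ### Words -/

lemma word_nil {A : Type u} [Group A] (t : A) : word t [] = 1 := rfl

lemma word_cons {A : Type u} [Group A] (t : A) (x : ℤ × A) (L : List (ℤ × A)) :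
    word t (x :: L) = t ^ x.1 * x.2 * word t L := by
  simp [word]

lemma word_append {A : Type u} [Group A] (t : A) (L L' : List (ℤ × A)) :
    word t (L ++ L') = word t L * word t L' := by
  simp [word]

lemma word_map {A : Type u} {B : Type v} [Group A] [Group B] (φ : A →* B) (t : A) (L : List (ℤ × A)) :
    φ (word t L) = word (φ t) (L.map (Prod.map id φ)) := by
  simp only [word, map_list_prod, List.map_map]
  congr 2
  funext x
  simp

/-! ### Positive equations (Levin) -/

lemma palindrome {P : Type u} [Group P] : ∀ (M : ℕ) (d : ℕ → P),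
    ((List.range M).map fun k => (d (M - 1 - k))⁻¹ * d k).prod = 1
  | 0, d => by simp
  | 1, d => by simp
  | M + 2, d => by
    have ih := palindrome M (fun j => d (j + 1))
    rw [List.range_succ, List.map_append, List.prod_append, List.range_succ_eq_map, List.map_cons,
      List.prod_cons, List.map_map]
    have h1 : ((List.range M).map ((fun k => (d (M + 2 - 1 - k))⁻¹ * d k) ∘ Nat.succ)).prod =
        ((List.range M).map fun k => (d (M - 1 - k + 1))⁻¹ * d (k + 1)).prod := by
      congr 1
      apply List.map_congr_left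
      intro k hk
      have := List.mem_range.1 hk
      simp only [Function.comp]
      congr 3
      omega
    rw [h1, ih]
    simp

lemma levin {P : Type u} [Group P] (n : ℕ) [NeZero n] (c : ℕ → P) (i : ZMod n) :
    ((List.range n).map fun l : ℕ => (c ((i - (l : ZMod n)).val))⁻¹ * c l).prod = 1 := by
  have hi : i.val < n := ZMod.val_lt i
  set m := i.val with hm
  have hn : n = (m + 1) + (n - 1 - m) := by omega
  have e1 : ∀ l, l ≤ m → (i - (l : ZMod n)).val = m - l := by
    intro l hl
    have : i - (l : ZMod n) = ((m - l : ℕ) : ZMod n) := by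
      rw [Nat.cast_sub hl, hm, ZMod.natCast_zmod_val]
    rw [this, ZMod.val_natCast, Nat.mod_eq_of_lt (by omega)]
  have e2 : ∀ l, m < l → l < n → (i - (l : ZMod n)).val = n + m - l := by
    intro l hl hl2
    have : i - (l : ZMod n) = ((n + m - l : ℕ) : ZMod n) := by
      rw [Nat.cast_sub (by omega), Nat.cast_add, ZMod.natCast_self, zero_add, hm,
        ZMod.natCast_zmod_val]
    rw [this, ZMod.val_natCast, Nat.mod_eq_of_lt (by omega)]
  have hr : List.range n = List.range (m + 1) ++ (List.range (n - 1 - m)).map (fun k => (m + 1) + k) := by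
    conv_lhs => rw [hn]
    exact List.range_add
  rw [hr, List.map_append, List.prod_append, List.map_map]
  have h1 : (List.range (m + 1)).map (fun l : ℕ => (c ((i - (l : ZMod n)).val))⁻¹ * c l) =
      (List.range (m + 1)).map (fun k => (c (m + 1 - 1 - k))⁻¹ * c k) := by
    apply List.map_congr_left
    intro k hk
    have := List.mem_range.1 hk
    rw [e1 k (by omega)]
    rfl
  have h2 : (List.range (n - 1 - m)).map ((fun l : ℕ => (c ((i - (l : ZMod n)).val))⁻¹ * c l) ∘
        (fun k => (m + 1) + k)) =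
      (List.range (n - 1 - m)).map (fun k => (c ((m + 1) + (n - 1 - m - 1 - k)))⁻¹ * c ((m + 1) + k)) := by
    apply List.map_congr_left
    intro k hk
    have := List.mem_range.1 hk
    simp only [Function.comp]
    rw [e2 (m + 1 + k) (by omega) (by omega)]
    congr 3
    omega
  rw [h1, h2, palindrome (m + 1) c, palindrome (n - 1 - m) (fun j => c ((m + 1) + j)), one_mul]

/-- the element solving the positive equation with coefficients `c 0, ..., c (n-1)` -/
def sol {P : Type u} [Group P] (n : ℕ) (c : ℕ → P) : Wr P n := ⟨fun j => (c j.val)⁻¹, 1⟩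

lemma partial_prod {P : Type u} [Group P] (n : ℕ) (t : Wr P n) (ht : t.a = 1) (c : ℕ → P) (k : ℕ) :
    ((List.range k).map fun l => t * Wr.diag P n (c l)).prod =
      ⟨fun i => ((List.range k).map fun l : ℕ => t.f (i - (l : ZMod n)) * c l).prod, (k : ZMod n)⟩ := by
  induction k with
  | zero =>
    ext i
    · simp
    · simp
  | succ k ih =>
    rw [List.range_succ, List.map_append, List.prod_append, ih]
    ext i
    · simp
    · simp [ht]

lemma sol_spec {P : Type u} [Group P] (n : ℕ) [NeZero n] (c : ℕ → P) :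
    ((List.range n).map fun l => sol n c * Wr.diag P n (c l)).prod = 1 := by
  rw [partial_prod n (sol n c) rfl c n]
  ext i
  · exact levin n c i
  · simp

/-! ### Coefficients generating a nilpotent group of class at most two -/

section class2

variable {C : Type u} [Group C]

/-- nilpotency class at most two -/
def Cl2 (C : Type u) [Group C] : Prop := ∀ a b c : C, ⁅⁅a, b⁆, c⁆ = 1

lemma Cl2.comm (hC : Cl2 C) (a b c : C) : ⁅a, b⁆ * c = c * ⁅a, b⁆ :=
  commutatorElement_eq_one_iff_mul_comm.1 (hC a b c)

instance centerComm (C : Type u) [Group C] : CommGroup (Subgroup.center C) :=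
  { (inferInstance : Group (Subgroup.center C)) with
    mul_comm := fun a b => Subtype.ext (Subgroup.mem_center_iff.1 b.2 a) }

/-- the commutator as an element of the center -/
def K (hC : Cl2 C) (a b : C) : Subgroup.center C :=
  ⟨⁅a, b⁆, Subgroup.mem_center_iff.2 fun c => (hC.comm a b c).symm⟩

lemma K_coe (hC : Cl2 C) (a b : C) : ((K hC a b : Subgroup.center C) : C) = ⁅a, b⁆ := rfl

lemma K_mul_left (hC : Cl2 C) (a a' b : C) : K hC (a * a') b = K hC a b * K hC a' b := by
  apply Subtype.ext
  rw [Subgroup.coe_mul, K_coe, K_coe, K_coe]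
  have h := hC.comm a' b a
  calc ⁅a * a', b⁆ = a * ⁅a', b⁆ * (b * a⁻¹ * b⁻¹) := by
        simp only [commutatorElement_def]; group
    _ = ⁅a', b⁆ * a * (b * a⁻¹ * b⁻¹) := by rw [h]
    _ = ⁅a', b⁆ * ⁅a, b⁆ := by simp only [commutatorElement_def]; group
    _ = ⁅a, b⁆ * ⁅a', b⁆ := hC.comm a' b _

lemma K_mul_right (hC : Cl2 C) (a b b' : C) : K hC a (b * b') = K hC a b * K hC a b' := by
  apply Subtype.ext
  rw [Subgroup.coe_mul, K_coe, K_coe, K_coe]
  have h := hC.comm a b' b
  calc ⁅a, b * b'⁆ = ⁅a, b⁆ * (b * ⁅a, b'⁆) * b⁻¹ := by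
        simp only [commutatorElement_def]; group
    _ = ⁅a, b⁆ * (⁅a, b'⁆ * b) * b⁻¹ := by rw [h]
    _ = ⁅a, b⁆ * ⁅a, b'⁆ := by group

/-- `a ↦ K a b` as a homomorphism -/
def Kl (hC : Cl2 C) (b : C) : C →* Subgroup.center C where
  toFun a := K hC a b
  map_one' := by
    apply Subtype.ext
    simp [K_coe]
  map_mul' a a' := K_mul_left hC a a' b

/-- `b ↦ K a b` as a homomorphism -/
def Kr (hC : Cl2 C) (a : C) : C →* Subgroup.center C where
  toFun b := K hC a b
  map_one' := by
    apply Subtype.ext
    simp [K_coe]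
  map_mul' b b' := K_mul_right hC a b b'

/-- the abelianization map -/
abbrev q (C : Type u) [Group C] : C →* Abelianization C := Abelianization.of

lemma K_congr (hC : Cl2 C) {a a' : C} (h : q C a = q C a') (b : C) : K hC a b = K hC a' b := by
  have h1 : Kl hC b = (Abelianization.lift (Kl hC b)).comp (q C) := by
    ext x
    simp
  have h2 : Kl hC b a = Kl hC b a' := by
    rw [h1]
    simp only [MonoidHom.comp_apply, h]
  exact h2

lemma K_center (hC : Cl2 C) (a : C) {z : C} (hz : z ∈ Subgroup.center C) : K hC a z = 1 := by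
  apply Subtype.ext
  rw [K_coe, Subgroup.coe_one, commutatorElement_eq_one_iff_mul_comm]
  exact Subgroup.mem_center_iff.1 hz a

lemma q_K (hC : Cl2 C) (a b : C) : q C (K hC a b : C) = 1 := by
  rw [K_coe, map_commutatorElement, commutatorElement_eq_one_iff_mul_comm]
  exact mul_comm _ _

lemma mem_center_of_q (hC : Cl2 C) {z : C} (hz : q C z = 1) : z ∈ Subgroup.center C := by
  have h1 : z ∈ commutator C := by
    rw [← Abelianization.ker_of]
    exact hz
  have h2 : commutator C ≤ Subgroup.center C := by
    rw [commutator_def, Subgroup.commutator_le]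
    intro a _ b _
    exact (K hC a b).2
  exact h2 h1

/-- integer powers of an element of the wreath product with shift `1` -/
lemma zpow_a {P : Type u} [Group P] {n : ℕ} (t : Wr P n) (ht : t.a = 1) (k : ℤ) :
    (t ^ k).a = (k : ZMod n) := by
  have h : ∀ x : Wr P n, ∀ k : ℕ, (x ^ k).a = k * x.a := by
    intro x k
    induction k with
    | zero => simp
    | succ k ih =>
      rw [pow_succ, Wr.mul_a, ih]
      push_cast
      ring
  rcases k with k | k
  · simp [h, ht]
  · rw [zpow_negSucc, Wr.inv_a, h, ht]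
    simp

lemma q_powN {n : ℕ} [NeZero n] (x : ZMod n → C) (t : Wr C n) (ht : t = ⟨x, 1⟩) (i : ZMod n) :
    q C ((t ^ (n : ℤ)).f i) = ∏ j, q C (x j) := by
  have h : ∀ k : ℕ, q C ((t ^ k).f i) = ∏ l ∈ Finset.range k, q C (x (i - (l : ZMod n))) := by
    intro k
    induction k with
    | zero => simp
    | succ k ih =>
      have ha : (t ^ k).a = (k : ZMod n) := by
        have := zpow_a t (by rw [ht]) (k : ℤ)
        simpa using this
      rw [pow_succ, Wr.mul_f, map_mul, ih, Finset.prod_range_succ, ha, ht]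
  rw [zpow_natCast, h n]
  rw [Finset.prod_range]
  have hb : Function.Bijective (fun l : Fin n => i - ((l : ℕ) : ZMod n)) := by
    rw [Fintype.bijective_iff_injective_and_card]
    refine ⟨?_, by simp⟩
    intro a b hab
    have h1 : ((a : ℕ) : ZMod n) = ((b : ℕ) : ZMod n) := by
      simpa using hab
    have h2 := (ZMod.natCast_eq_natCast_iff _ _ _).1 h1
    have h3 : (a : ℕ) % n = (b : ℕ) % n := h2
    rw [Nat.mod_eq_of_lt a.2, Nat.mod_eq_of_lt b.2] at h3
    exact Fin.ext h3
  exact Fintype.prod_bijective _ hb _ _ (fun _ => rfl)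

lemma q_shift {n : ℕ} [NeZero n] (t : Wr C n) (ht : t.a = 1) (y : C)
    (hy : ∀ i, q C ((t ^ (n : ℤ)).f i) = q C y) (j : ℕ) (m : ℤ) (i : ZMod n) :
    q C ((t ^ (((j : ℤ) + 1) + n * m)).f i) = q C ((t ^ ((j : ℤ) + 1)).f i * y ^ m) := by
  have h0 : (t ^ (n : ℤ)).a = 0 := by
    rw [zpow_a t ht]
    simp
  have h1 : ∀ k : ℕ, ∀ i, q C (((t ^ (n : ℤ)) ^ k).f i) = q C y ^ k := by
    intro k
    induction k with
    | zero => simp
    | succ k ih =>
      intro i
      rw [pow_succ, Wr.mul_f, map_mul, ih, hy, pow_succ]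
  have h2 : ∀ (k : ℤ) (i : ZMod n), q C (((t ^ (n : ℤ)) ^ k).f i) = q C y ^ k := by
    intro k i
    rcases k with k | k
    · simpa using h1 k i
    · rw [zpow_negSucc, Wr.inv_f, map_inv, h1, zpow_negSucc]
  rw [zpow_add, zpow_mul, Wr.mul_f, map_mul, map_mul, h2, map_zpow]

/-- normal form of a word in the wreath product of a group of class two -/
lemma normal_form (hC : Cl2 C) (n : ℕ) [NeZero n] (y : C) (L : List (ℤ × C)) :
    ∃ (g : ℕ → C) (μ : Subgroup.center C), q C (μ : C) = 1 ∧
      q C (((List.range n).map g).prod) = q C ((L.map Prod.snd).prod) ∧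
      ∀ t : Wr C n, t.a = 1 → (∀ i, q C ((t ^ (n : ℤ)).f i) = q C y) →
        word t (L.map (Prod.map id (Wr.diag C n))) =
          ⟨fun i => ((∏ j ∈ Finset.range n, K hC ((t ^ ((j : ℤ) + 1)).f i) (g j) : Subgroup.center C) : C)
            * μ * (L.map Prod.snd).prod * (t ^ ((L.map Prod.fst).sum)).f i,
            (((L.map Prod.fst).sum : ℤ) : ZMod n)⟩ := by
  induction L using List.reverseRecOn with
  | nil =>
    refine ⟨fun _ => 1, 1, by simp, by simp, ?_⟩
    intro t ht hy
    have hK : ∀ a : C, K hC a 1 = 1 := fun a => K_center hC a (Subgroup.one_mem _)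
    ext i
    · simp [word, hK]
    · simp [word]
  | append_singleton L x ih =>
    obtain ⟨g, μ, hμ, hg, hL⟩ := ih
    obtain ⟨ε, c⟩ := x
    have hn : (0 : ℤ) < n := by exact_mod_cast NeZero.pos n
    set E : ℤ := (L.map Prod.fst).sum + ε with hE
    set jj : ℕ := ((E - 1) % n).toNat with hjj
    set m : ℤ := (E - 1) / n with hm
    have hj0 : 0 ≤ (E - 1) % n := Int.emod_nonneg _ hn.ne'
    have hj1 : (E - 1) % n < n := Int.emod_lt_of_pos _ hn
    have hjz : (jj : ℤ) = (E - 1) % n := Int.toNat_of_nonneg hj0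
    have hjn : jj < n := by
      have : (jj : ℤ) < n := by rw [hjz]; exact hj1
      exact_mod_cast this
    have hEe : E = ((jj : ℤ) + 1) + n * m := by
      rw [hjz, hm]
      have := Int.emod_add_mul_ediv (E - 1) n
      linarith
    refine ⟨Function.update g jj (g jj * c), μ * K hC y c ^ m, ?_, ?_, ?_⟩
    · rw [Subgroup.coe_mul, map_mul, hμ, one_mul, Subgroup.coe_zpow, map_zpow, q_K, one_zpow]
    · rw [List.map_append, List.prod_append, map_mul, ← hg, map_list_prod, map_list_prod,
        List.map_map, List.map_map]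
      have hr : ∀ F : ℕ → Abelianization C, ((List.range n).map F).prod =
          ∏ j ∈ Finset.range n, F j := by
        intro F
        rw [Finset.prod_range, ← List.prod_ofFn]
        congr 1
        rw [List.ofFn_eq_map, ← List.map_coe_finRange_eq_range, List.map_map]
        rfl
      rw [hr, hr]
      rw [← Finset.mul_prod_erase _ _ (Finset.mem_range.2 hjn),
        ← Finset.mul_prod_erase (Finset.range n) (q C ∘ g) (Finset.mem_range.2 hjn)]
      have he : ∏ x ∈ (Finset.range n).erase jj, (q C ∘ Function.update g jj (g jj * c)) x =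
          ∏ x ∈ (Finset.range n).erase jj, (q C ∘ g) x := by
        apply Finset.prod_congr rfl
        intro x hx
        simp only [Function.comp]
        rw [Function.update_of_ne (Finset.ne_of_mem_erase hx)]
      rw [he]
      simp only [Function.comp, Function.update_self, map_mul, List.map_cons, List.map_nil,
        List.prod_cons, List.prod_nil, mul_one]
      exact mul_right_comm _ _ _
    · intro t ht hy
      rw [List.map_append, word_append, hL t ht hy]
      have hu : ∀ i, (∏ j ∈ Finset.range n, K hC ((t ^ ((j : ℤ) + 1)).f i)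
            (Function.update g jj (g jj * c) j)) =
          (∏ j ∈ Finset.range n, K hC ((t ^ ((j : ℤ) + 1)).f i) (g j)) *
            K hC ((t ^ ((jj : ℤ) + 1)).f i) c := by
        intro i
        rw [← Finset.mul_prod_erase _ _ (Finset.mem_range.2 hjn),
          ← Finset.mul_prod_erase (Finset.range n) (fun j => K hC ((t ^ ((j : ℤ) + 1)).f i) (g j))
            (Finset.mem_range.2 hjn)]
        have he : ∏ x ∈ (Finset.range n).erase jj, K hC ((t ^ ((x : ℤ) + 1)).f i)
            (Function.update g jj (g jj * c) x) =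
            ∏ x ∈ (Finset.range n).erase jj, K hC ((t ^ ((x : ℤ) + 1)).f i) (g x) := by
          apply Finset.prod_congr rfl
          intro x hx
          rw [Function.update_of_ne (Finset.ne_of_mem_erase hx)]
        rw [he, Function.update_self, K_mul_right]
        exact mul_right_comm _ _ _
      have hk : ∀ i, K hC ((t ^ E).f i) c = K hC ((t ^ ((jj : ℤ) + 1)).f i) c * K hC y c ^ m := by
        intro i
        rw [hEe, K_congr hC (q_shift t ht y hy jj m i), K_mul_left]
        congr 1
        exact map_zpow (Kl hC c) y m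
      have hsum : ((L ++ [(ε, c)]).map Prod.fst).sum = E := by simp [hE]
      rw [hsum]
      ext i
      · simp only [List.map_cons, List.map_nil, Prod.map, id, word_cons, word_nil, mul_one,
          Wr.mul_f, Wr.diag_f, List.map_append, List.prod_append, List.prod_cons, List.prod_nil]
        have hX : (t ^ E).f i = (t ^ ((L.map Prod.fst).sum)).f i *
            (t ^ ε).f (i - (((L.map Prod.fst).sum : ℤ) : ZMod n)) := by
          rw [hE, zpow_add, Wr.mul_f, zpow_a t ht]
        rw [hu]
        set A : Subgroup.center C := ∏ j ∈ Finset.range n, K hC ((t ^ ((j : ℤ) + 1)).f i) (g j)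
        set Γ : C := (L.map Prod.snd).prod
        have h3 : (t ^ E).f i * c = (K hC ((t ^ E).f i) c : C) * (c * (t ^ E).f i) := by
          rw [K_coe, commutatorElement_def]
          group
        have hcz : ∀ (z : Subgroup.center C) (w : C), w * (z : C) = z * w := fun z w =>
          Subgroup.mem_center_iff.1 z.2 w
        calc ((A : C) * μ * Γ * (t ^ ((L.map Prod.fst).sum)).f i) *
              ((t ^ ε).f (i - (((L.map Prod.fst).sum : ℤ) : ZMod n)) * c)
            = (A : C) * μ * Γ * ((t ^ E).f i * c) := by rw [hX]; group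
          _ = (A : C) * μ * (Γ * (K hC ((t ^ E).f i) c : C)) * (c * (t ^ E).f i) := by
              rw [h3]; group
          _ = (A : C) * μ * ((K hC ((t ^ E).f i) c : C) * Γ) * (c * (t ^ E).f i) := by
              rw [hcz (K hC ((t ^ E).f i) c) Γ]
          _ = ((A * K hC ((t ^ ((jj : ℤ) + 1)).f i) c : Subgroup.center C) : C) *
              ((μ * K hC y c ^ m : Subgroup.center C) : C) * (Γ * c) * (t ^ E).f i := by
              rw [hk]
              have : (A : C) * μ * (K hC ((t ^ ((jj : ℤ) + 1)).f i) c * K hC y c ^ m :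
                  Subgroup.center C) = ((A * K hC ((t ^ ((jj : ℤ) + 1)).f i) c : Subgroup.center C) : C) *
                  ((μ * K hC y c ^ m : Subgroup.center C) : C) := by
                norm_cast
                rw [mul_mul_mul_comm]
              rw [← this]
              simp only [mul_assoc]
      · simp only [List.map_cons, List.map_nil, Prod.map, id, word_cons, word_nil, mul_one,
          Wr.mul_a, Wr.diag_a, zpow_a t ht, add_zero, hE, Int.cast_add]

lemma prod_range_comm {M : Type v} [CommGroup M] (n : ℕ) (F : ℕ → M) :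
    ((List.range n).map F).prod = ∏ j ∈ Finset.range n, F j := by
  induction n with
  | zero => simp
  | succ n ih => rw [List.range_succ, List.map_append, List.prod_append, ih, Finset.prod_range_succ]; simp

/-- the positive word in normal form -/
lemma normal_pos (hC : Cl2 C) (n : ℕ) (t : Wr C n) (ht : t.a = 1) (γ : ℕ → C) (k : ℕ) :
    ((List.range k).map fun l => t * Wr.diag C n (γ l)).prod =
      ⟨fun i => ((∏ j ∈ Finset.range k, K hC ((t ^ ((j : ℤ) + 1)).f i) (γ j) : Subgroup.center C) : C)
        * ((List.range k).map γ).prod * (t ^ (k : ℤ)).f i, (k : ZMod n)⟩ := by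
  induction k with
  | zero =>
    ext i
    · simp
    · simp
  | succ k ih =>
    rw [List.range_succ, List.map_append, List.prod_append, ih]
    have hk : ((t ^ (k : ℤ)).a : ZMod n) = (k : ZMod n) := by
      rw [zpow_a t ht]
      simp
    ext i
    · simp only [List.map_cons, List.map_nil, List.prod_cons, List.prod_nil, mul_one, Wr.mul_f,
        Wr.diag_f, List.map_append, List.prod_append, Finset.prod_range_succ]
      have hX : (t ^ ((k : ℤ) + 1)).f i = (t ^ (k : ℤ)).f i * t.f (i - (k : ZMod n)) := by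
        rw [zpow_add, zpow_one, Wr.mul_f, hk]
      have hcast : (((k + 1 : ℕ) : ℤ)) = (k : ℤ) + 1 := by push_cast; rfl
      rw [hcast]
      have h3 : (t ^ ((k : ℤ) + 1)).f i * γ k =
          (K hC ((t ^ ((k : ℤ) + 1)).f i) (γ k) : C) * (γ k * (t ^ ((k : ℤ) + 1)).f i) := by
        rw [K_coe, commutatorElement_def]
        group
      have hcz : ∀ (z : Subgroup.center C) (w : C), w * (z : C) = z * w := fun z w =>
        Subgroup.mem_center_iff.1 z.2 w
      set A : Subgroup.center C := ∏ j ∈ Finset.range k, K hC ((t ^ ((j : ℤ) + 1)).f i) (γ j)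
      set Γ : C := ((List.range k).map γ).prod
      calc (A : C) * Γ * (t ^ (k : ℤ)).f i * (t.f (i - (k : ZMod n)) * γ k)
          = (A : C) * Γ * ((t ^ ((k : ℤ) + 1)).f i * γ k) := by rw [hX]; group
        _ = (A : C) * (Γ * (K hC ((t ^ ((k : ℤ) + 1)).f i) (γ k) : C)) *
            (γ k * (t ^ ((k : ℤ) + 1)).f i) := by rw [h3]; group
        _ = (A : C) * ((K hC ((t ^ ((k : ℤ) + 1)).f i) (γ k) : C) * Γ) *
            (γ k * (t ^ ((k : ℤ) + 1)).f i) := by rw [hcz (K hC ((t ^ ((k : ℤ) + 1)).f i) (γ k)) Γ]
        _ = ((A * K hC ((t ^ ((k : ℤ) + 1)).f i) (γ k) : Subgroup.center C) : C) * (Γ * γ k) *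
            (t ^ ((k : ℤ) + 1)).f i := by
            rw [Subgroup.coe_mul]
            simp only [mul_assoc]
    · simp [ht]

/-- every nonsingular equation over a group of class two has a solution in a wreath product -/
lemma class2_solution (hC : Cl2 C) (L : List (ℤ × C)) (n : ℕ) [NeZero n]
    (hL : (L.map Prod.fst).sum = n) :
    ∃ t : Wr C n, word t (L.map (Prod.map id (Wr.diag C n))) = 1 := by
  obtain ⟨g, μ, hμ, hg, hnf⟩ := normal_form hC n ((L.map Prod.snd).prod)⁻¹ L
  set Γ : C := (L.map Prod.snd).prod with hΓ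
  set z : C := μ * Γ * ((List.range n).map g).prod⁻¹ with hz
  have hqz : q C z = 1 := by
    rw [hz, map_mul, map_mul, hμ, map_inv, hg, one_mul, mul_inv_cancel]
  have hzc := mem_center_of_q hC hqz
  set γ : ℕ → C := fun j => if j = 0 then z * g 0 else g j with hγ
  have hn := NeZero.pos n
  obtain ⟨n', hn'⟩ : ∃ n', n = n' + 1 := ⟨n - 1, by omega⟩
  have hprod : ((List.range n).map γ).prod = z * ((List.range n).map g).prod := by
    rw [hn', List.range_succ_eq_map, List.map_cons, List.map_cons, List.prod_cons, List.prod_cons,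
      List.map_map, List.map_map]
    have h1 : (List.range n').map (γ ∘ Nat.succ) = (List.range n').map (g ∘ Nat.succ) := by
      apply List.map_congr_left
      intro k _
      simp [hγ]
    have h0 : γ 0 = z * g 0 := by simp [hγ]
    rw [h1, h0]
    exact mul_assoc _ _ _
  have hprod2 : ((List.range n).map γ).prod = μ * Γ := by
    rw [hprod, hz]
    group
  have hK : ∀ (a : C) (j : ℕ), K hC a (γ j) = K hC a (g j) := by
    intro a j
    by_cases hj : j = 0
    · subst hj
      have h0 : γ 0 = z * g 0 := by simp [hγ]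
      rw [h0, K_mul_right, K_center hC a hzc, one_mul]
    · simp only [hγ, if_neg hj]
  have hq : ∀ i, q C (((sol n γ) ^ (n : ℤ)).f i) = q C Γ⁻¹ := by
    intro i
    rw [q_powN (fun j => (γ j.val)⁻¹) (sol n γ) rfl i]
    have h1 : ∏ j : ZMod n, q C ((γ j.val)⁻¹) = (∏ j ∈ Finset.range n, q C (γ j))⁻¹ := by
      have h2 : ∀ j : ZMod n, q C ((γ j.val)⁻¹) = (q C (γ j.val))⁻¹ := fun j => map_inv _ _
      simp only [h2, Finset.prod_inv_distrib]
      congr 1
      rw [Finset.prod_range]
      refine Fintype.prod_bijective (fun j : ZMod n => (⟨j.val, ZMod.val_lt j⟩ : Fin n)) ?_ _ _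
        (fun _ => rfl)
      rw [Fintype.bijective_iff_injective_and_card]
      refine ⟨?_, by simp⟩
      intro a b hab
      exact ZMod.val_injective n (Fin.mk.inj_iff.1 hab)
    rw [h1, ← prod_range_comm]
    have h3 : ((List.range n).map fun j => q C (γ j)).prod = q C ((List.range n).map γ).prod := by
      rw [map_list_prod, List.map_map]
      rfl
    rw [h3, hprod2, map_mul, hμ, one_mul, map_inv]
  refine ⟨sol n γ, ?_⟩
  rw [hnf (sol n γ) rfl hq, hL]
  have h1 := sol_spec n γ
  rw [normal_pos hC n (sol n γ) rfl γ n] at h1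
  ext i
  · have h2 := congrArg (fun x : Wr C n => x.f i) h1
    simp only [hK, hprod2, Wr.one_f] at h2
    rw [Wr.one_f]
    rw [← mul_assoc] at h2
    exact h2
  · simp

end class2

/-! ### One step -/

lemma lift_list {P : Type u} [Group P] (C : Subgroup P) (L : List (ℤ × P)) (h : ∀ x ∈ L, x.2 ∈ C) :
    ∃ L' : List (ℤ × C), L'.map (Prod.map id C.subtype) = L := by
  induction L with
  | nil => exact ⟨[], rfl⟩
  | cons x L ih =>
    obtain ⟨L', hL'⟩ := ih (fun y hy => h y (List.mem_cons_of_mem _ hy))
    refine ⟨(x.1, ⟨x.2, h x List.mem_cons_self⟩) :: L', ?_⟩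
    rw [List.map_cons, hL']
    rfl

/-- expansion of a positive word: all exponents become `1` -/
lemma expand {A : Type u} [Group A] (L : List (ℤ × A)) (hL : ∀ x ∈ L, 0 ≤ x.1) :
    ∃ (c0 : A) (cs : List A), (cs = [] → (L.map Prod.fst).sum = 0) ∧
      ∀ {B : Type u} [Group B] (φ : A →* B) (t : B),
        word t (L.map (Prod.map id φ)) = φ c0 * (cs.map fun c => t * φ c).prod := by
  induction L with
  | nil => exact ⟨1, [], by simp, fun {B} _ φ t => by simp [word]⟩
  | cons x L ih =>
    obtain ⟨c0, cs, h1, h2⟩ := ih (fun y hy => hL y (List.mem_cons_of_mem _ hy))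
    have hx := hL x List.mem_cons_self
    rcases hx.eq_or_lt with hx0 | hx0
    · refine ⟨x.2 * c0, cs, ?_, ?_⟩
      · intro h
        rw [List.map_cons, List.sum_cons, h1 h, ← hx0, add_zero]
      · intro B _ φ t
        rw [List.map_cons, word_cons, h2]
        simp only [Prod.map, id, ← hx0, zpow_zero, one_mul, map_mul, mul_assoc]
    · obtain ⟨k, hk⟩ : ∃ k : ℕ, x.1 = k + 1 := ⟨(x.1 - 1).toNat, by omega⟩
      refine ⟨1, List.replicate k (1 : A) ++ (x.2 * c0) :: cs, by simp, ?_⟩
      intro B _ φ t
      rw [List.map_cons, word_cons, h2, List.map_append, List.prod_append, List.map_replicate,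
        List.prod_replicate, List.map_cons, List.prod_cons]
      simp only [Prod.map, id, hk, zpow_add, zpow_natCast, zpow_one, map_one, mul_one, one_mul,
        map_mul, mul_assoc]

lemma positive_solution' {P : Type u} [Group P] (cs : List P) (h1 : cs ≠ []) :
    ∃ (n : ℕ) (t : Wr P n), (cs.map fun c => t * Wr.diag P n c).prod = 1 := by
  set n := cs.length with hn
  have : NeZero n := ⟨by rw [hn]; simpa using h1⟩
  refine ⟨n, sol n (fun k => cs.getD k 1), ?_⟩
  have h3 := sol_spec n (fun k => cs.getD k 1)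
  have h4 : cs = (List.range n).map (fun k => cs.getD k 1) := by
    apply List.ext_getElem
    · simp [hn]
    · intro i hi hi'
      simp [List.getElem?_eq_getElem hi]
  have h5 : ∀ t : Wr P n, (cs.map fun c => t * Wr.diag P n c).prod =
      ((List.range n).map fun l => t * Wr.diag P n (cs.getD l 1)).prod := by
    intro t
    conv_lhs => rw [h4]
    rw [List.map_map]
    rfl
  rw [h5]
  exact h3

lemma positive_solution {P : Type u} [Group P] (L : List (ℤ × P)) (h0 : (L.map Prod.fst).sum ≠ 0)
    (hL : ∀ x ∈ L, 0 ≤ x.1) :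
    ∃ (n : ℕ) (t : Wr P n), word t (L.map (Prod.map id (Wr.diag P n))) = 1 := by
  obtain ⟨c0, cs, h1, h2⟩ := expand L hL
  have hcs : cs ≠ [] := fun h => h0 (h1 h)
  obtain ⟨n, t, ht⟩ := positive_solution' (cs.dropLast ++ [cs.getLast hcs * c0]) (by simp)
  refine ⟨n, t, ?_⟩
  rw [h2]
  have h3 : cs = cs.dropLast ++ [cs.getLast hcs] := (List.dropLast_append_getLast hcs).symm
  have h4 : (cs.map fun c => t * Wr.diag P n c).prod =
      (cs.dropLast.map fun c => t * Wr.diag P n c).prod * (t * Wr.diag P n (cs.getLast hcs)) := by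
    conv_lhs => rw [h3]
    rw [List.map_append, List.prod_append]
    simp
  rw [List.map_append, List.prod_append] at ht
  simp only [List.map_cons, List.map_nil, List.prod_cons, List.prod_nil, mul_one, map_mul] at ht
  rw [h4]
  set D := (cs.dropLast.map fun c => t * Wr.diag P n c).prod
  set g := Wr.diag P n (cs.getLast hcs)
  set g0 := Wr.diag P n c0
  have h5 : D * (t * g) * g0 = 1 := by
    rw [← ht]
    group
  exact mul_eq_one_comm.1 h5

lemma word_inv {A : Type u} [Group A] (t : A) (L : List (ℤ × A)) :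
    word t⁻¹ L = word t (L.map fun x => (-x.1, x.2)) := by
  simp only [word, List.map_map]
  congr 1
  apply List.map_congr_left
  intro x _
  simp

lemma step {P : Type u} [Group P] (L : List (ℤ × P)) (h : Good L) :
    ∃ (n : ℕ) (t : Wr P n), word t (L.map (Prod.map id (Wr.diag P n))) = 1 := by
  have hflip : ∀ (L : List (ℤ × P)) (n : ℕ) (t : Wr P n),
      word t ((L.map fun x => (-x.1, x.2)).map (Prod.map id (Wr.diag P n))) = 1 →
      word t⁻¹ (L.map (Prod.map id (Wr.diag P n))) = 1 := by
    intro L n t ht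
    rw [word_inv, ← ht, List.map_map, List.map_map]
    rfl
  have hcl : ∀ (L : List (ℤ × P)) (e : ℕ), e ≠ 0 → (L.map Prod.fst).sum = e →
      (∀ a ∈ coefs L, ∀ b ∈ coefs L, ∀ c ∈ coefs L, ⁅⁅a, b⁆, c⁆ = 1) →
      ∃ (n : ℕ) (t : Wr P n), word t (L.map (Prod.map id (Wr.diag P n))) = 1 := by
    intro L e he hs hc
    have : NeZero e := ⟨he⟩
    obtain ⟨L', hL'⟩ := lift_list (coefs L) L
      (fun x hx => Subgroup.subset_closure ⟨x, hx, rfl⟩)
    have hC : Cl2 (coefs L) := by
      intro a b c
      apply Subtype.ext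
      exact hc a a.2 b b.2 c c.2
    have hs' : (L'.map Prod.fst).sum = e := by
      have h5 : (L'.map (Prod.map id (coefs L).subtype)).map Prod.fst = L.map Prod.fst := by
        rw [hL']
      rw [← hs, ← h5, List.map_map]
      rfl
    obtain ⟨t, ht⟩ := class2_solution hC L' e hs'
    refine ⟨e, Wr.map (coefs L).subtype t, ?_⟩
    have h1 := congrArg (Wr.map (n := e) (coefs L).subtype) ht
    rw [word_map, map_one, List.map_map] at h1
    have h5 : L.map (Prod.map id (Wr.diag P e)) =
        (L'.map (Prod.map id (coefs L).subtype)).map (Prod.map id (Wr.diag P e)) := by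
      rw [hL']
    rw [h5, List.map_map]
    exact h1
  have e2 : ((L.map fun x => (-x.1, x.2)).map Prod.fst).sum = -(L.map Prod.fst).sum := by
    rw [List.map_map]
    clear h
    induction L with
    | nil => simp
    | cons x L ih =>
      simp only [List.map_cons, List.sum_cons, Function.comp] at ih ⊢
      rw [ih]
      ring
  obtain ⟨h1, h | h | h2⟩ := h
  · exact positive_solution L h1 h
  · obtain ⟨n, t, ht⟩ := positive_solution (L.map fun x => (-x.1, x.2)) (by rw [e2]; omega)
      (by
        intro x hx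
        rw [List.mem_map] at hx
        obtain ⟨y, hy, rfl⟩ := hx
        have := h y hy
        simp only
        omega)
    exact ⟨n, t⁻¹, hflip L n t ht⟩
  · rcases lt_or_gt_of_ne h1 with h3 | h3
    · have e1 : coefs (L.map fun x => (-x.1, x.2)) = coefs L := by
        unfold coefs
        congr 1
        ext a
        simp only [List.mem_map, Set.mem_ofPred_eq]
        constructor
        · rintro ⟨x, ⟨y, hy, rfl⟩, rfl⟩
          exact ⟨y, hy, rfl⟩
        · rintro ⟨y, hy, rfl⟩
          exact ⟨_, ⟨y, hy, rfl⟩, rfl⟩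
      obtain ⟨n, t, ht⟩ := hcl (L.map fun x => (-x.1, x.2)) (-(L.map Prod.fst).sum).toNat (by omega)
        (by rw [e2]; omega) (by rw [e1]; exact h2)
      exact ⟨n, t⁻¹, hflip L n t ht⟩
    · exact hcl L (L.map Prod.fst).sum.toNat (by omega) (by omega) h2

/-! ### Towers -/

lemma Good.map {A B : Type u} [Group A] [Group B] (φ : A →* B) {L : List (ℤ × A)} (h : Good L) :
    Good (L.map (Prod.map id φ)) := by
  have e1 : (L.map (Prod.map id φ)).map Prod.fst = L.map Prod.fst := by
    rw [List.map_map]
    rfl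
  refine ⟨by rw [e1]; exact h.1, ?_⟩
  rcases h.2 with h | h | h
  · left
    intro x hx
    rw [List.mem_map] at hx
    obtain ⟨y, hy, rfl⟩ := hx
    exact h y hy
  · right; left
    intro x hx
    rw [List.mem_map] at hx
    obtain ⟨y, hy, rfl⟩ := hx
    exact h y hy
  · right; right
    have e2 : coefs (L.map (Prod.map id φ)) = (coefs L).map φ := by
      unfold coefs
      rw [MonoidHom.map_closure]
      congr 1
      ext b
      simp only [List.mem_map, Set.mem_ofPred_eq, Set.mem_image]
      constructor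
      · rintro ⟨x, ⟨y, hy, rfl⟩, rfl⟩
        exact ⟨y.2, ⟨y, hy, rfl⟩, rfl⟩
      · rintro ⟨a, ⟨y, hy, rfl⟩, rfl⟩
        exact ⟨_, ⟨y, hy, rfl⟩, rfl⟩
    rw [e2]
    rintro _ ⟨a, ha, rfl⟩ _ ⟨b, hb, rfl⟩ _ ⟨c, hc, rfl⟩
    rw [← map_commutatorElement, ← map_commutatorElement, h a ha b hb c hc, map_one]

section tower

variable {G : Type u} [Group G] {m : ℕ}

/-- the subgroup of `G * F(t_0, ..., t_(m-1))` generated by `G` and the `t_l`, `l < j` -/
def below (G : Type u) [Group G] (m : ℕ) (j : ℕ) : Subgroup (Coprod G (FreeGroup (Fin m))) :=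
  Subgroup.closure (Set.range (Coprod.inl : G →* Coprod G (FreeGroup (Fin m))) ∪
    {a | ∃ l : Fin m, l.val < j ∧ a = Coprod.inr (FreeGroup.of l)})

lemma below_mono {i j : ℕ} (h : i ≤ j) : below G m i ≤ below G m j := by
  apply Subgroup.closure_mono
  apply Set.union_subset_union_right
  rintro a ⟨l, hl, rfl⟩
  exact ⟨l, by omega, rfl⟩

/-- the relator with coefficient list `L j` -/
def rel (L : Fin m → List (ℤ × Coprod G (FreeGroup (Fin m)))) (j : Fin m) :
    Coprod G (FreeGroup (Fin m)) := word (Coprod.inr (FreeGroup.of j)) (L j)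

lemma tower (L : Fin m → List (ℤ × Coprod G (FreeGroup (Fin m))))
    (hL : ∀ j, ∀ x ∈ L j, x.2 ∈ below G m j.val) (hg : ∀ j, Good (L j)) :
    ∀ j : ℕ, j ≤ m → ∃ (P : Type u) (_ : Group P) (φ : G →* P) (τ : Fin m → P), Conservative φ ∧
      ∀ l : Fin m, l.val < j → Coprod.lift φ (FreeGroup.lift τ) (rel L l) = 1 := by
  intro j
  induction j with
  | zero =>
    intro _
    exact ⟨G, inferInstance, MonoidHom.id G, fun _ => 1, conservative_id, fun l hl => by omega⟩
  | succ j ih =>
    intro hj
    obtain ⟨P, hP, φ, τ, hφ, hrel⟩ := ih (by omega)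
    set ev := Coprod.lift φ (FreeGroup.lift τ) with hev
    obtain ⟨n, t, ht⟩ := step ((L ⟨j, by omega⟩).map (Prod.map id ev)) ((hg ⟨j, by omega⟩).map ev)
    set τ' : Fin m → Wr P n := fun l => if l.val < j then Wr.diag P n (τ l) else if l.val = j then t else 1
      with hτ'
    set ev' := Coprod.lift ((Wr.diag P n).comp φ) (FreeGroup.lift τ') with hev'
    have hagree : ∀ a ∈ below G m j, ev' a = Wr.diag P n (ev a) := by
      have h : Set.EqOn ev' ((Wr.diag P n).comp ev) (Subgroup.closure
          (Set.range (Coprod.inl : G →* Coprod G (FreeGroup (Fin m))) ∪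
            {a | ∃ l : Fin m, l.val < j ∧ a = Coprod.inr (FreeGroup.of l)})) := by
        apply MonoidHom.eqOn_closure
        rintro a (⟨g, rfl⟩ | ⟨l, hl, rfl⟩)
        · simp [hev, hev']
        · simp [hev, hev', hτ', hl]
      intro a ha
      exact h ha
    have hword : ∀ l : Fin m, l.val ≤ j → ev' (rel L l) =
        word (τ' l) (((L l).map (Prod.map id ev)).map (Prod.map id (Wr.diag P n))) := by
      intro l hl
      unfold rel
      rw [word_map]
      have h1 : ev' (Coprod.inr (FreeGroup.of l)) = τ' l := by simp [hev']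
      rw [h1, List.map_map]
      congr 1
      apply List.map_congr_left
      intro x hx
      have h2 := hagree x.2 (below_mono hl (hL l x hx))
      simp only [Prod.map, id, Function.comp, h2]
    refine ⟨Wr P n, inferInstance, (Wr.diag P n).comp φ, τ', Wr.conservative_diag.comp hφ, ?_⟩
    intro l hl
    show ev' (rel L l) = 1
    rw [hword l (by omega)]
    rcases Nat.lt_or_ge l.val j with h | h
    · have h1 : τ' l = Wr.diag P n (τ l) := by simp [hτ', h]
      rw [h1, ← word_map]
      have h2 : ev (rel L l) = word (τ l) ((L l).map (Prod.map id ev)) := by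
        unfold rel
        rw [word_map]
        have h1 : ev (Coprod.inr (FreeGroup.of l)) = τ l := by simp [hev]
        rw [h1]
      rw [← h2, hrel l h, map_one]
    · have hlj : l.val = j := by omega
      have h1 : τ' l = t := by simp [hτ', hlj]
      have h2 : l = ⟨j, by omega⟩ := Fin.ext hlj
      rw [h1, h2]
      exact ht

/-- Conjecture G for triangular systems of admissible equations -/
theorem conjG (L : Fin m → List (ℤ × Coprod G (FreeGroup (Fin m))))
    (hL : ∀ j, ∀ x ∈ L j, x.2 ∈ below G m j.val) (hg : ∀ j, Good (L j)) :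
    Conservative ((QuotientGroup.mk' (Subgroup.normalClosure (Set.range (rel L)))).comp
      (Coprod.inl : G →* Coprod G (FreeGroup (Fin m)))) := by
  obtain ⟨P, hP, φ, τ, hφ, hrel⟩ := tower L hL hg m le_rfl
  set ev := Coprod.lift φ (FreeGroup.lift τ) with hev
  have hker : Subgroup.normalClosure (Set.range (rel L)) ≤ ev.ker := by
    apply Subgroup.normalClosure_le_normal
    rintro _ ⟨l, rfl⟩
    exact hrel l l.2
  have h1 : (QuotientGroup.lift _ ev (fun x hx => hker hx)).comp
      ((QuotientGroup.mk' (Subgroup.normalClosure (Set.range (rel L)))).comp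
      (Coprod.inl : G →* Coprod G (FreeGroup (Fin m)))) = φ := by
    ext g
    simp [hev]
  apply Conservative.of_comp (ψ := QuotientGroup.lift _ ev (fun x hx => hker hx))
  rw [h1]
  exact hφ

end tower

/-! ### Subgroups of free groups -/

lemma conj_prod {A : Type u} [Group A] (x : A) (n : ℕ) (f : Fin n → A) :
    (List.ofFn fun i => x * f i * x⁻¹).prod = x * (List.ofFn f).prod * x⁻¹ := by
  have h := map_list_prod (MulAut.conj x).toMonoidHom (List.ofFn f)
  rw [List.map_ofFn] at h
  exact h.symm

lemma Conservative.dependent {A : Type u} {B : Type v} [Group A] [Group B] {φ : A →* B}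
    (hφ : Conservative φ) (n : ℕ) (a : A) (g : Fin n → A)
    (h : ∃ c : Fin n → B, φ a = (List.ofFn fun i => c i * φ (g i) * (c i)⁻¹).prod) :
    ∃ c : Fin n → A, a = (List.ofFn fun i => c i * g i * (c i)⁻¹).prod := by
  obtain ⟨c, hc⟩ := h
  obtain ⟨k, hk⟩ := hφ (n + 1) (Fin.cons a⁻¹ g) ⟨Fin.cons 1 c, by
    rw [List.ofFn_succ, List.prod_cons]
    simp only [Fin.cons_zero, Fin.cons_succ]
    rw [← hc]
    simp⟩
  rw [List.ofFn_succ, List.prod_cons] at hk
  simp only [Fin.cons_zero, Fin.cons_succ] at hk
  refine ⟨fun i => (k 0)⁻¹ * k i.succ, ?_⟩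
  have h1 : (List.ofFn fun i : Fin n => ((k 0)⁻¹ * k i.succ) * g i * ((k 0)⁻¹ * k i.succ)⁻¹) =
      List.ofFn fun i : Fin n => (k 0)⁻¹ * (k i.succ * g i * (k i.succ)⁻¹) * ((k 0)⁻¹)⁻¹ := by
    congr 1
    funext i
    group
  rw [h1, conj_prod]
  have h2 := eq_inv_of_mul_eq_one_right hk
  rw [h2]
  group

section free

variable {k : ℕ}

/-- the subgroup generated by `u_0, ..., u_(k-1)`, `u_j = x_j^(ε₁) c₁ x_j^(ε₂) c₂ ...` -/
def sub (L : Fin k → List (ℤ × FreeGroup (Fin k))) : Subgroup (FreeGroup (Fin k)) :=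
  Subgroup.closure (Set.range fun j => word (FreeGroup.of j) (L j))

theorem conjB (L : Fin k → List (ℤ × FreeGroup (Fin k)))
    (hL : ∀ j, ∀ x ∈ L j, x.2 ∈ Subgroup.closure {a | ∃ l : Fin k, l < j ∧ a = FreeGroup.of l})
    (hg : ∀ j, ((L j).map Prod.fst).sum ≠ 0 ∧ ((∀ x ∈ L j, 0 ≤ x.1) ∨ (∀ x ∈ L j, x.1 ≤ 0))) :
    Conservative (sub L).subtype := by
  set S := sub L with hS
  have hu : ∀ j, word (FreeGroup.of j) (L j) ∈ S := fun j =>
    Subgroup.subset_closure ⟨j, rfl⟩
  set L' : Fin k → List (ℤ × Coprod S (FreeGroup (Fin k))) := fun j =>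
    (L j).map (Prod.map id (Coprod.inr : FreeGroup (Fin k) →* Coprod S (FreeGroup (Fin k)))) ++
      [(0, Coprod.inl (⟨word (FreeGroup.of j) (L j), hu j⟩ : S)⁻¹)] with hL'
  have h1 : ∀ j, ∀ x ∈ L' j, x.2 ∈ below S k j.val := by
    intro j x hx
    rw [hL', List.mem_append, List.mem_map, List.mem_singleton] at hx
    rcases hx with ⟨y, hy, rfl⟩ | rfl
    · have h2 := hL j y hy
      have h3 : Coprod.inr y.2 ∈ (Subgroup.closure {a | ∃ l : Fin k, l < j ∧ a = FreeGroup.of l}).map
          (Coprod.inr : FreeGroup (Fin k) →* Coprod S (FreeGroup (Fin k))) :=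
        Subgroup.mem_map_of_mem _ h2
      rw [MonoidHom.map_closure] at h3
      refine Subgroup.closure_mono ?_ h3
      rintro _ ⟨a, ⟨l, hl, rfl⟩, rfl⟩
      exact Or.inr ⟨l, hl, rfl⟩
    · exact Subgroup.subset_closure (Or.inl ⟨_, rfl⟩)
  have h2 : ∀ j, Good (L' j) := by
    intro j
    obtain ⟨h3, h4⟩ := hg j
    have e1 : ((L' j).map Prod.fst).sum = ((L j).map Prod.fst).sum := by
      rw [hL', List.map_append, List.sum_append, List.map_map]
      simp only [List.map_cons, List.map_nil, List.sum_cons, List.sum_nil, add_zero]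
      rfl
    refine ⟨by rw [e1]; exact h3, ?_⟩
    rcases h4 with h4 | h4
    · left
      intro x hx
      rw [hL', List.mem_append, List.mem_map, List.mem_singleton] at hx
      rcases hx with ⟨y, hy, rfl⟩ | rfl
      · exact h4 y hy
      · exact le_rfl
    · right; left
      intro x hx
      rw [hL', List.mem_append, List.mem_map, List.mem_singleton] at hx
      rcases hx with ⟨y, hy, rfl⟩ | rfl
      · exact h4 y hy
      · exact le_rfl
  obtain ⟨P, hP, φ, τ, hφ, hrel⟩ := tower L' h1 h2 k le_rfl
  have h3 : ∀ j, FreeGroup.lift τ (word (FreeGroup.of j) (L j)) =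
      φ ⟨word (FreeGroup.of j) (L j), hu j⟩ := by
    intro j
    have h4 := hrel j j.2
    have e1 : rel L' j = Coprod.inr (word (FreeGroup.of j) (L j)) *
        Coprod.inl (⟨word (FreeGroup.of j) (L j), hu j⟩ : S)⁻¹ := by
      unfold rel
      rw [hL', word_append, word_map]
      simp [word]
    rw [e1, map_mul, Coprod.lift_apply_inr, Coprod.lift_apply_inl, map_inv, mul_inv_eq_one] at h4
    exact h4
  have h5 : (FreeGroup.lift τ).comp S.subtype = φ := by
    apply MonoidHom.eq_of_eqOn_dense (Subgroup.closure_closure_coe_preimage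
      (k := Set.range fun j => word (FreeGroup.of j) (L j)))
    rintro ⟨x, hx⟩ hx'
    obtain ⟨j, hj⟩ := hx'
    simp only at hj
    subst hj
    exact h3 j
  apply Conservative.of_comp (ψ := FreeGroup.lift τ)
  rw [h5]
  exact hφ

end free

/-- `φ : A → B` reflects dependence: if `φ a` is a product of `B`-conjugates of `φ (g 0), ...,
φ (g (n-1))`, then `a` is a product of `A`-conjugates of `g 0, ..., g (n-1)`. -/
def Reflects {A : Type u} {B : Type v} [Group A] [Group B] (φ : A →* B) : Prop :=
  ∀ (n : ℕ) (a : A) (g : Fin n → A),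
    (∃ c : Fin n → B, φ a = (List.ofFn fun i => c i * φ (g i) * (c i)⁻¹).prod) →
    ∃ c : Fin n → A, a = (List.ofFn fun i => c i * g i * (c i)⁻¹).prod

/-- the map from `G` to `G * F(t_0, ..., t_(m-1)) / << rel L 0, ..., rel L (m-1) >>` -/
def toExt {G : Type u} [Group G] {m : ℕ} (L : Fin m → List (ℤ × Coprod G (FreeGroup (Fin m)))) :
    G →* Coprod G (FreeGroup (Fin m)) ⧸ Subgroup.normalClosure (Set.range (rel L)) :=
  (QuotientGroup.mk' (Subgroup.normalClosure (Set.range (rel L)))).comp Coprod.inl

/-- **Main theorem.**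

(1) Let `G` be a group and `w_j = t_j^(ε₁) c₁ t_j^(ε₂) c₂ ...` (`j < m`) words in `G * F(t_0, ..., t_(m-1))`
with coefficients `c_i` in the subgroup generated by `G` and the `t_l`, `l < j`, with nonzero exponent
sum `∑ ε_i`, such that for each `j` no exponent is negative, or no exponent is positive, or the
coefficients generate a nilpotent group of class at most two.  Let
`H = G * F(t_0, ..., t_(m-1)) / << w_0, ..., w_(m-1) >>`.  If `a` in `G` is, in `H`, a product of
`H`-conjugates of `g_1, ..., g_n` in `G`, then it is a product of `G`-conjugates of `g_1, ..., g_n`.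

(2) Let `F` be free on `x_0, ..., x_(k-1)` and `S` the subgroup generated by
`u_j = x_j^(ε₁) c₁ x_j^(ε₂) c₂ ...` (`j < k`) with coefficients in the subgroup generated by the
`x_l`, `l < j`, all exponents (for each `j`) of the same sign, not all zero.  If `a` in `S` is a
product of `F`-conjugates of `g_1, ..., g_n` in `S`, then it is a product of `S`-conjugates. -/
theorem result :
    (∀ (G : Type u) [Group G] (m : ℕ) (L : Fin m → List (ℤ × Coprod G (FreeGroup (Fin m)))),
      (∀ j, ∀ x ∈ L j, x.2 ∈ below G m j) → (∀ j, Good (L j)) → Reflects (toExt L)) ∧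
    (∀ (k : ℕ) (L : Fin k → List (ℤ × FreeGroup (Fin k))),
      (∀ j, ∀ x ∈ L j, x.2 ∈ Subgroup.closure {a | ∃ l : Fin k, l < j ∧ a = FreeGroup.of l}) →
      (∀ j, ((L j).map Prod.fst).sum ≠ 0 ∧ ((∀ x ∈ L j, 0 ≤ x.1) ∨ (∀ x ∈ L j, x.1 ≤ 0))) →
      Reflects (sub L).subtype) :=
  ⟨fun _ _ _ L hL hg n a g h => (conjG L hL hg).dependent n a g h,
    fun _ L hL hg n a g h => (conjB L hL hg).dependent n a g h⟩

end Pool.Agent.Results.MP_e9d015_al.WreathTowers
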